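import Pool.Agent.Helper77.DS.Kos

/-! DS-10b: k-fold differences from the powers of the Segre ideal -/

namespace Pool.Agent.Helper77.DS

open MvPolynomial

noncomputable section

section vanbase

variable {R I E : Type}

theorem van_zero_fun [DecidableEq R] [DecidableEq I] (n : ℕ) : ∀ (U : Finset R),
    Van n U (fun _ : R → I → E => (0 : ℂ)) := by
  induction n with
  | zero => intro _ _; rfl
  | succ n ih =>
    intro U P Q _ _ _ i
    have h := ih (insert P (insert Q U))
    have e : (fun t : R → I → E => (fun _ : R → I → E => (0 : ℂ)) t -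
        (fun _ : R → I → E => (0 : ℂ)) (sw P Q i t)) = fun _ => 0 := by
      funext t
      exact sub_zero _
    rw [e]
    exact h

theorem sw_apply_of_ne [DecidableEq R] [DecidableEq I] {P Q r : R} (i : I) (t : R → I → E)
    (h1 : r ≠ P) (h2 : r ≠ Q) : sw P Q i t r = t r := by
  funext j
  unfold sw
  split_ifs with h
  · rw [Equiv.swap_apply_of_ne_of_ne h1 h2]
  · rfl

theorem sw_left [DecidableEq R] [DecidableEq I] (P Q : R) (i : I) (t : R → I → E) :
    sw P Q i t P = Function.update (t P) i (t Q i) := by
  funext j
  unfold sw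
  by_cases h : j = i
  · subst h; simp
  · simp [h]

theorem sw_right [DecidableEq R] [DecidableEq I] (P Q : R) (i : I) (t : R → I → E) :
    sw P Q i t Q = Function.update (t Q) i (t P i) := by
  funext j
  unfold sw
  by_cases h : j = i
  · subst h; simp
  · simp [h]

/-- the induction of DS-10b -/
theorem van_aux [Fintype R] [DecidableEq R] [DecidableEq I] (mk : Finset R) :
    ∀ (n k j : ℕ) (U : Finset R)
      (lam : (R → I → E) → (MvPolynomial (I → E) ℂ →ₗ[ℂ] ℂ)), n = k + j →
      (mk \ U).card ≤ j →
      (∀ t t' : R → I → E, (∀ r ∈ U ∪ mk, t r = t' r) → lam t = lam t') →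
      (∀ t, ∀ x ∈ segI I E ^ k, lam t x = 0) →
      Van n U (fun t => lam t (∏ r ∈ (U ∪ mk)ᶜ, X (t r))) := by
  intro n
  induction n with
  | zero =>
    intro k j U lam hn _ _ hv t
    have hk : k = 0 := by omega
    subst hk
    exact hv t _ (by simp)
  | succ n ih =>
    intro k j U lam hn hc hd hv
    rcases Nat.eq_zero_or_pos k with hk | hk
    · subst hk
      have h0 : (fun t => lam t (∏ r ∈ (U ∪ mk)ᶜ, X (t r))) = fun _ : R → I → E => (0 : ℂ) := by
        funext t
        exact hv t _ (by simp)
      rw [h0]
      exact van_zero_fun _ _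
    · intro P Q hP hQ hPQ i
      set U1 : Finset R := insert P (insert Q U) with hU1
      -- the rows which are no longer free
      set D : Finset R := (U1 ∪ mk) \ (U ∪ mk) with hD
      have hsub : U ∪ mk ⊆ U1 ∪ mk := by
        intro r hr
        simp only [hU1, Finset.mem_union, Finset.mem_insert] at hr ⊢
        tauto
      have hDmem : ∀ r ∈ D, r = P ∨ r = Q := by
        intro r hr
        simp only [hD, hU1, Finset.mem_sdiff, Finset.mem_union, Finset.mem_insert] at hr
        tauto
      have hdis : Disjoint D (U1 ∪ mk)ᶜ := by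
        rw [Finset.disjoint_left]
        intro r hr hr'
        simp only [hD, Finset.mem_sdiff] at hr
        exact (Finset.mem_compl.mp hr') hr.1
      have hun : (U ∪ mk)ᶜ = D ∪ (U1 ∪ mk)ᶜ := by
        ext r
        simp only [hD, Finset.mem_union, Finset.mem_compl, Finset.mem_sdiff]
        constructor
        · intro h
          by_cases h2 : r ∈ U1 ∨ r ∈ mk
          · exact Or.inl ⟨h2, h⟩
          · exact Or.inr h2
        · rintro (h | h)
          · exact h.2
          · intro h3
            apply h
            have := hsub (Finset.mem_union.mpr h3)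
            exact Finset.mem_union.mp this
      have hprod : ∀ t : R → I → E, (∏ r ∈ (U ∪ mk)ᶜ, (X (t r) : MvPolynomial (I → E) ℂ)) =
          (∏ r ∈ D, X (t r)) * ∏ r ∈ (U1 ∪ mk)ᶜ, X (t r) := by
        intro t
        rw [hun, Finset.prod_union hdis]
      have hprod' : ∀ t : R → I → E,
          (∏ r ∈ (U1 ∪ mk)ᶜ, (X (sw P Q i t r) : MvPolynomial (I → E) ℂ)) =
            ∏ r ∈ (U1 ∪ mk)ᶜ, X (t r) := by
        intro t
        refine Finset.prod_congr rfl fun r hr => ?_
        have h1 : r ≠ P := by
          rintro rfl
          apply Finset.mem_compl.mp hr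
          simp [hU1]
        have h2 : r ≠ Q := by
          rintro rfl
          apply Finset.mem_compl.mp hr
          simp [hU1]
        rw [sw_apply_of_ne i t h1 h2]
      -- the new functionals
      let lam' : (R → I → E) → (MvPolynomial (I → E) ℂ →ₗ[ℂ] ℂ) := fun t =>
        (lam t).comp (LinearMap.mulLeft ℂ (∏ r ∈ D, X (t r))) -
          (lam (sw P Q i t)).comp (LinearMap.mulLeft ℂ (∏ r ∈ D, X (sw P Q i t r)))
      have hlam' : ∀ t x, lam' t x = lam t ((∏ r ∈ D, X (t r)) * x) -
          lam (sw P Q i t) ((∏ r ∈ D, X (sw P Q i t r)) * x) := fun t x => rfl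
      have hfun : (fun t : R → I → E => lam t (∏ r ∈ (U ∪ mk)ᶜ, X (t r)) -
          lam (sw P Q i t) (∏ r ∈ (U ∪ mk)ᶜ, X (sw P Q i t r))) =
          fun t => lam' t (∏ r ∈ (U1 ∪ mk)ᶜ, X (t r)) := by
        funext t
        rw [hlam', hprod t, hprod (sw P Q i t), hprod' t]
      have hd' : ∀ t t' : R → I → E, (∀ r ∈ U1 ∪ mk, t r = t' r) → lam' t = lam' t' := by
        intro t t' h
        have hP' : t P = t' P := h P (by simp [hU1])
        have hQ' : t Q = t' Q := h Q (by simp [hU1])
        have hsw : ∀ r ∈ U1 ∪ mk, sw P Q i t r = sw P Q i t' r := by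
          intro r hr
          by_cases h1 : r = P
          · subst h1
            rw [sw_left, sw_left, hP', hQ']
          · by_cases h2 : r = Q
            · subst h2
              rw [sw_right, sw_right, hP', hQ']
            · rw [sw_apply_of_ne i t h1 h2, sw_apply_of_ne i t' h1 h2, h r hr]
        have e1 : lam t = lam t' := hd t t' fun r hr => h r (hsub hr)
        have e2 : lam (sw P Q i t) = lam (sw P Q i t') :=
          hd _ _ fun r hr => hsw r (hsub hr)
        have hDs : ∀ r ∈ D, r ∈ U1 ∪ mk := fun r hr => (Finset.mem_sdiff.mp hr).1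
        have e3 : (∏ r ∈ D, (X (t r) : MvPolynomial (I → E) ℂ)) = ∏ r ∈ D, X (t' r) :=
          Finset.prod_congr rfl fun r hr => by rw [h r (hDs r hr)]
        have e4 : (∏ r ∈ D, (X (sw P Q i t r) : MvPolynomial (I → E) ℂ)) =
            ∏ r ∈ D, X (sw P Q i t' r) :=
          Finset.prod_congr rfl fun r hr => by rw [hsw r (hDs r hr)]
        simp only [lam', e1, e2, e3, e4]
      show Van n U1 (fun t => lam t (∏ r ∈ (U ∪ mk)ᶜ, X (t r)) -
          lam (sw P Q i t) (∏ r ∈ (U ∪ mk)ᶜ, X (sw P Q i t r)))
      rw [hfun]
      by_cases hm : P ∈ mk ∨ Q ∈ mk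
      · -- a marked row is used
        have hlt : (mk \ U1).card < (mk \ U).card := by
          apply Finset.card_lt_card
          rw [Finset.ssubset_iff_of_subset]
          · rcases hm with hm | hm
            · exact ⟨P, by simp [hm, hP], by simp [hU1]⟩
            · exact ⟨Q, by simp [hm, hQ], by simp [hU1]⟩
          · intro r hr
            simp only [hU1, Finset.mem_sdiff, Finset.mem_insert] at hr ⊢
            tauto
        refine ih k (j - 1) U1 lam' (by omega) (by omega) hd' ?_
        intro t x hx
        rw [hlam', hv t _ (Ideal.mul_mem_left _ _ hx), hv (sw P Q i t) _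
          (Ideal.mul_mem_left _ _ hx), sub_zero]
      · -- both rows are unmarked
        push Not at hm
        obtain ⟨k', rfl⟩ : ∃ k', k = k' + 1 := ⟨k - 1, by omega⟩
        have hle : (mk \ U1).card ≤ (mk \ U).card := by
          apply Finset.card_le_card
          intro r hr
          simp only [hU1, Finset.mem_sdiff, Finset.mem_insert] at hr ⊢
          tauto
        refine ih k' j U1 lam' (by omega) (by omega) hd' ?_
        intro t x hx
        have hPU : P ∉ U ∪ mk := by simp [hP, hm.1]
        have hQU : Q ∉ U ∪ mk := by simp [hQ, hm.2]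
        have e1 : lam (sw P Q i t) = lam t := by
          apply hd
          intro r hr
          have h1 : r ≠ P := fun h => hPU (h ▸ hr)
          have h2 : r ≠ Q := fun h => hQU (h ▸ hr)
          exact sw_apply_of_ne i t h1 h2
        have hDeq : D = {P, Q} := by
          ext r
          simp only [Finset.mem_insert, Finset.mem_singleton]
          constructor
          · exact hDmem r
          · rintro (rfl | rfl)
            · exact Finset.mem_sdiff.mpr ⟨by simp [hU1], hPU⟩
            · exact Finset.mem_sdiff.mpr ⟨by simp [hU1], hQU⟩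
        rw [hlam', e1, hDeq, Finset.prod_pair hPQ, Finset.prod_pair hPQ, ← map_sub, ← sub_mul,
          sw_left, sw_right]
        apply hv t
        have hgen : (X (t P) * X (t Q) - X (Function.update (t P) i (t Q i)) *
            X (Function.update (t Q) i (t P i)) : MvPolynomial (I → E) ℂ) ∈ segI I E :=
          Ideal.subset_span ⟨t P, t Q, i, rfl⟩
        have hmul := Ideal.mul_mem_mul hx hgen
        rw [pow_succ]
        rw [mul_comm x _] at hmul
        exact hmul

end vanbase

section

variable {p q : ℕ} {I I' E E' : Type} [Fintype I] [DecidableEq I] [Fintype E]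

/-- DS-10b -/
theorem van_of_base (M : ℕ) (g : (Fin (p + q) → I → E) → ℂ)
    (hg : ∀ f : (Fin (p + q) → I → E) → ℂ, (∀ s, pol f s ∈ segI I E ^ M) →
      ∑ t, f t * g t = 0) : Van (M + p) ∅ g := by
  classical
  -- the map to `Sym^q`
  let Φ : ((Fin q → I → E) → ℂ) →ₗ[ℂ] MvPolynomial (I → E) ℂ :=
    { toFun := fun f => ∑ u : Fin q → I → E, C (f u) * ∏ r, X (u r)
      map_add' := by
        intro f f'
        rw [← Finset.sum_add_distrib]
        refine Finset.sum_congr rfl fun u _ => ?_
        rw [Pi.add_apply, C_add, add_mul]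
      map_smul' := by
        intro a f
        rw [RingHom.id_apply, Finset.smul_sum]
        refine Finset.sum_congr rfl fun u _ => ?_
        rw [Pi.smul_apply, smul_eq_mul, C_mul, MvPolynomial.smul_eq_C_mul, mul_assoc] }
  let N : Submodule ℂ (MvPolynomial (I → E) ℂ) := (segI I E ^ M).restrictScalars ℂ
  let T := N.mkQ.comp Φ
  let ψ : (Fin p → I → E) → (((Fin q → I → E) → ℂ) →ₗ[ℂ] ℂ) := fun s =>
    { toFun := fun f => ∑ u : Fin q → I → E, f u * g (Fin.append s u)
      map_add' := by
        intro f f'
        rw [← Finset.sum_add_distrib]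
        refine Finset.sum_congr rfl fun u _ => ?_
        rw [Pi.add_apply, add_mul]
      map_smul' := by
        intro a f
        rw [RingHom.id_apply, Finset.smul_sum]
        refine Finset.sum_congr rfl fun u _ => ?_
        rw [Pi.smul_apply, smul_eq_mul, smul_eq_mul, mul_assoc] }
  have hker : ∀ s, ψ s ∈ (LinearMap.ker T).dualAnnihilator := by
    intro s
    rw [Submodule.mem_dualAnnihilator]
    intro f hf
    have hf' : Φ f ∈ segI I E ^ M := by
      have h1 : T f = 0 := hf
      have h2 : N.mkQ (Φ f) = 0 := h1
      rw [Submodule.mkQ_apply, Submodule.Quotient.mk_eq_zero] at h2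
      exact h2
    let F : (Fin (p + q) → I → E) → ℂ := fun t =>
      if (fun r => t (Fin.castAdd q r)) = s then f (fun r => t (Fin.natAdd p r)) else 0
    have hF : ∀ (s' : Fin p → I → E) (u : Fin q → I → E), F (Fin.append s' u) =
        if s' = s then f u else 0 := by
      intro s' u
      simp only [F, Fin.append_left, Fin.append_right]
    have h3 := hg F (by
      intro s'
      by_cases hs : s' = s
      · have : pol F s' = Φ f := by
          show (∑ u : Fin q → I → E, C (F (Fin.append s' u)) * ∏ r, X (u r)) =
            ∑ u : Fin q → I → E, C (f u) * ∏ r, X (u r)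
          refine Finset.sum_congr rfl fun u _ => ?_
          rw [hF, if_pos hs]
        rw [this]
        exact hf'
      · have : pol F s' = 0 := by
          show (∑ u : Fin q → I → E, C (F (Fin.append s' u)) * ∏ r, X (u r)) = 0
          refine Finset.sum_eq_zero fun u _ => ?_
          rw [hF, if_neg hs, C_0, zero_mul]
        rw [this]
        exact Ideal.zero_mem _)
    rw [← (Fin.appendEquiv p q).sum_comp, Fintype.sum_prod_type] at h3
    have h4 : ∀ s' : Fin p → I → E, (∑ u : Fin q → I → E,
        F ((Fin.appendEquiv p q) (s', u)) * g ((Fin.appendEquiv p q) (s', u))) =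
        if s' = s then ψ s f else 0 := by
      intro s'
      have h5 : ∀ u : Fin q → I → E, (Fin.appendEquiv p q) (s', u) = Fin.append s' u :=
        fun u => rfl
      by_cases hs : s' = s
      · rw [if_pos hs]
        show _ = ∑ u : Fin q → I → E, f u * g (Fin.append s u)
        refine Finset.sum_congr rfl fun u _ => ?_
        rw [h5, hF, if_pos hs, hs]
      · rw [if_neg hs]
        refine Finset.sum_eq_zero fun u _ => ?_
        rw [h5, hF, if_neg hs, zero_mul]
    rw [Finset.sum_congr rfl fun s' _ => h4 s'] at h3
    simpa using h3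
  have hex : ∀ s, ∃ L : Module.Dual ℂ (MvPolynomial (I → E) ℂ ⧸ N), T.dualMap L = ψ s := by
    intro s
    have h := hker s
    rw [← LinearMap.range_dualMap_eq_dualAnnihilator_ker] at h
    exact h
  choose L hL using hex
  let mk : Finset (Fin (p + q)) := Finset.univ.map (Fin.castAddEmb q)
  let lam : (Fin (p + q) → I → E) → (MvPolynomial (I → E) ℂ →ₗ[ℂ] ℂ) := fun t =>
    (L (fun r => t (Fin.castAdd q r))).comp N.mkQ
  have hcard : (mk \ ∅).card ≤ p := by simp [mk]
  have h1 := van_aux (E := E) (I := I) mk (M + p) M p ∅ lam rfl hcard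
    (by
      intro t t' h
      have h2 : (fun r => t (Fin.castAdd q r)) = fun r => t' (Fin.castAdd q r) := by
        funext r
        exact h _ (by simp [mk])
      simp only [lam, h2])
    (by
      intro t x hx
      have h2 : N.mkQ x = 0 := by
        rw [Submodule.mkQ_apply, Submodule.Quotient.mk_eq_zero]
        exact hx
      simp only [lam, LinearMap.comp_apply, h2, map_zero])
  have h2 : (fun t : Fin (p + q) → I → E => lam t (∏ r ∈ (∅ ∪ mk)ᶜ, X (t r))) = g := by
    funext t
    have hc : (∅ ∪ mk)ᶜ = (Finset.univ.map (Fin.natAddEmb p) : Finset (Fin (p + q))) := by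
      ext r
      refine Fin.addCases (fun a => ?_) (fun a => ?_) r
      · simp only [mk, Finset.empty_union, Finset.mem_compl, Finset.mem_map, Finset.mem_univ,
          true_and, Fin.castAddEmb_apply, Fin.natAddEmb_apply]
        constructor
        · intro h; exact absurd ⟨a, rfl⟩ h
        · rintro ⟨b, hb⟩
          exfalso
          have := congrArg Fin.val hb
          simp only [Fin.val_natAdd, Fin.val_castAdd] at this
          have := a.2
          omega
      · simp only [mk, Finset.empty_union, Finset.mem_compl, Finset.mem_map, Finset.mem_univ,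
          true_and, Fin.castAddEmb_apply, Fin.natAddEmb_apply]
        constructor
        · intro _; exact ⟨a, rfl⟩
        · rintro _ ⟨b, hb⟩
          have := congrArg Fin.val hb
          simp only [Fin.val_natAdd, Fin.val_castAdd] at this
          have := b.2
          omega
    rw [hc, Finset.prod_map]
    have h3 : (∏ r : Fin q, (X (t (Fin.natAddEmb p r)) : MvPolynomial (I → E) ℂ)) =
        Φ (Pi.single (fun r => t (Fin.natAdd p r)) 1) := by
      show _ = ∑ u : Fin q → I → E,
        C ((Pi.single (fun r => t (Fin.natAdd p r)) (1 : ℂ) : (Fin q → I → E) → ℂ) u) *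
          ∏ r, X (u r)
      rw [Finset.sum_eq_single (fun r => t (Fin.natAdd p r))]
      · rw [Pi.single_eq_same, C_1, one_mul]
        rfl
      · intro u _ hu
        rw [Pi.single_eq_of_ne hu, C_0, zero_mul]
      · intro h; exact absurd (Finset.mem_univ _) h
    rw [h3]
    have h4 := congrArg (fun z => z (Pi.single (fun r => t (Fin.natAdd p r)) (1 : ℂ)))
      (hL (fun r => t (Fin.castAdd q r)))
    have h5 : lam t (Φ (Pi.single (fun r => t (Fin.natAdd p r)) 1)) =
        ψ (fun r => t (Fin.castAdd q r)) (Pi.single (fun r => t (Fin.natAdd p r)) (1 : ℂ)) := h4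
    rw [h5]
    show (∑ u : Fin q → I → E,
      (Pi.single (fun r => t (Fin.natAdd p r)) (1 : ℂ) : (Fin q → I → E) → ℂ) u *
        g (Fin.append (fun r => t (Fin.castAdd q r)) u)) = g t
    rw [Finset.sum_eq_single (fun r => t (Fin.natAdd p r))]
    · rw [Pi.single_eq_same, one_mul, Fin.append_castAdd_natAdd]
    · intro u _ hu
      rw [Pi.single_eq_of_ne hu, zero_mul]
    · intro h; exact absurd (Finset.mem_univ _) h
  rw [h2] at h1
  exact h1

end

end

end Pool.Agent.Helper77.DS
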